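import Mathlib

/-!
# Bounded-length Maker wins in the generalized van der Waerden game

For every `n` there is a bound `C n` such that, for EVERY set `S` of `n` natural numbers, Maker can
claim a copy `a S + b` of `S` within `C n` of his own moves, whatever Breaker does.

Proof: by the Hales-Jewett theorem there is `d` such that every 2-colouring of the cube `S ^ d` has a
monochromatic combinatorial line.  The map `x ↦ ∑ xᵢ B ^ i` (with a large `B`) embeds the cube into
the natural numbers and turns every combinatorial line into a copy of `S`.  On the image of the cube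
Maker, who moves first, wins by strategy stealing; the size `n ^ d` of the cube depends only on `n`.
-/

set_option autoImplicit false

namespace Pool.Agent.Results.MP_3e1131_co.BoundedWin

open Finset

/-- `M` contains a copy `a S + b` of `S`, for an integer `a ≥ 1` and an integer `b`. -/
def ContainsCopy (S M : Finset ℕ) : Prop :=
  ∃ a : ℕ, 1 ≤ a ∧ ∃ b : ℤ, ∀ s ∈ S, ∃ m ∈ M, (m : ℤ) = (a : ℤ) * (s : ℤ) + b

/-- `MakerWinsIn S N M B`: in the position of the game `G(S)` in which Maker has claimed `M` and
Breaker has claimed `B`, and Maker is to move, Maker can force that he owns a copy of `S` after at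
most `N` further selections of his own: either he already owns a copy, or (for `N ≥ 1`) he can claim
an unclaimed number `x` such that afterwards he owns a copy, or else, for every unclaimed number `y`
claimed by Breaker in reply, he can force this with `N - 1` further selections. -/
def MakerWinsIn (S : Finset ℕ) : ℕ → Finset ℕ → Finset ℕ → Prop
  | 0, M, _ => ContainsCopy S M
  | N + 1, M, B => ContainsCopy S M ∨
      ∃ x : ℕ, x ∉ M ∧ x ∉ B ∧ (ContainsCopy S (insert x M) ∨
        ∀ y : ℕ, y ∉ insert x M → y ∉ B → MakerWinsIn S N (insert x M) (insert y B))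

/-- The least `N` for which Maker has an `N`-move strategy for `S`. -/
noncomputable def moveNumber (S : Finset ℕ) : ℕ := sInf {N : ℕ | MakerWinsIn S N ∅ ∅}

/-! ### Strategy stealing on a finite board -/

section Board

variable {X : Type} [DecidableEq X] (win : Finset X → Prop)

/-- Maker, who owns `M` and is to move, wins on a board whose set of unclaimed points is `free`. -/
inductive W : Finset X → Finset X → Prop
  | now {free M : Finset X} : win M → W free M
  | last {free M : Finset X} (x : X) : x ∈ free → win (insert x M) → W free M
  | step {free M : Finset X} (x : X) : x ∈ free → (free.erase x).Nonempty →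
      (∀ y ∈ free.erase x, W ((free.erase x).erase y) (insert x M)) → W free M

variable {win}

/-- More unclaimed points do not harm Maker. -/
theorem W.mono {free M : Finset X} (h : W win free M) :
    ∀ free' : Finset X, free ⊆ free' → W win free' M := by
  induction h with
  | now h => intro f' _; exact W.now h
  | last x hx h => intro f' hf; exact W.last x (hf hx) h
  | @step free M x hx hne h ih =>
      intro f' hf
      refine W.step x (hf hx) (hne.mono (erase_subset_erase _ hf)) ?_
      intro y hy
      by_cases hy' : y ∈ free.erase x
      · exact ih y hy' _ (erase_subset_erase _ (erase_subset_erase _ hf))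
      · obtain ⟨y0, hy0⟩ := hne
        refine ih y0 hy0 _ ?_
        intro z hz
        have hz1 : z ∈ free.erase x := mem_of_mem_erase hz
        refine mem_erase.2 ⟨?_, erase_subset_erase _ hf hz1⟩
        rintro rfl
        exact hy' hz1

/-- When neither player can win (in the stated sense) the board can be divided so that neither part
is winning. -/
theorem divide : ∀ (n : ℕ) (free M₁ M₂ : Finset X), free.card ≤ n →
    ¬ W win free M₁ → ((free = ∅ ∧ ¬ win M₂) ∨ ∃ z ∈ free, ¬ W win (free.erase z) M₂) →
    ∃ F₁ F₂ : Finset X, free ⊆ F₁ ∪ F₂ ∧ ¬ win (M₁ ∪ F₁) ∧ ¬ win (M₂ ∪ F₂) := by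
  intro n
  induction n with
  | zero =>
      intro free M₁ M₂ hn h1 h2
      have hf : free = ∅ := card_eq_zero.1 (Nat.le_zero.1 hn)
      subst hf
      rcases h2 with h2 | ⟨z, hz, _⟩
      · refine ⟨∅, ∅, by simp, ?_, ?_⟩
        · rw [union_empty]; exact fun h => h1 (W.now h)
        · rw [union_empty]; exact h2.2
      · simp at hz
  | succ n ih =>
      intro free M₁ M₂ hn h1 h2
      rcases h2 with h2 | ⟨z, hz, hz2⟩
      · obtain ⟨hf, h2⟩ := h2
        subst hf
        refine ⟨∅, ∅, by simp, ?_, ?_⟩
        · rw [union_empty]; exact fun h => h1 (W.now h)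
        · rw [union_empty]; exact h2
      · -- the first player claims `z`
        by_cases hne : (free.erase z).Nonempty
        · have h3 : ∃ y ∈ free.erase z, ¬ W win ((free.erase z).erase y) (insert z M₁) := by
            by_contra hcon
            push Not at hcon
            exact h1 (W.step z hz hne hcon)
          obtain ⟨y, hy, hy2⟩ := h3
          -- the second player claims `y`
          have h4 : (((free.erase z).erase y) = ∅ ∧ ¬ win (insert y M₂)) ∨
              ∃ w ∈ (free.erase z).erase y,
                ¬ W win (((free.erase z).erase y).erase w) (insert y M₂) := by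
            by_cases hne2 : ((free.erase z).erase y).Nonempty
            · right
              by_contra hcon
              push Not at hcon
              exact hz2 (W.step y hy hne2 hcon)
            · left
              refine ⟨not_nonempty_iff_eq_empty.1 hne2, ?_⟩
              exact fun h => hz2 (W.last y hy h)
          have hc : ((free.erase z).erase y).card ≤ n := by
            rw [card_erase_of_mem hy, card_erase_of_mem hz]
            omega
          obtain ⟨F₁, F₂, hF, hF1, hF2⟩ := ih _ (insert z M₁) (insert y M₂) hc hy2 h4
          refine ⟨insert z F₁, insert y F₂, ?_, ?_, ?_⟩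
          · intro w hw
            by_cases hwz : w = z
            · subst hwz; simp
            · by_cases hwy : w = y
              · subst hwy; simp
              · have := hF (mem_erase.2 ⟨hwy, mem_erase.2 ⟨hwz, hw⟩⟩)
                rw [mem_union] at this
                rcases this with h | h
                · exact mem_union_left _ (mem_insert_of_mem h)
                · exact mem_union_right _ (mem_insert_of_mem h)
          · have : M₁ ∪ insert z F₁ = insert z M₁ ∪ F₁ := by
              ext w; simp only [mem_union, mem_insert]; tauto
            rw [this]; exact hF1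
          · have : M₂ ∪ insert y F₂ = insert y M₂ ∪ F₂ := by
              ext w; simp only [mem_union, mem_insert]; tauto
            rw [this]; exact hF2
        · have hf : free = {z} := by
            have := not_nonempty_iff_eq_empty.1 hne
            ext w
            constructor
            · intro hw
              by_contra hwz
              have : w ∈ free.erase z := mem_erase.2 ⟨fun h => hwz (by simp [h]), hw⟩
              rw [not_nonempty_iff_eq_empty.1 hne] at this
              simp at this
            · intro hw
              rw [mem_singleton] at hw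
              rw [hw]; exact hz
          refine ⟨{z}, ∅, by rw [hf]; simp, ?_, ?_⟩
          · intro h
            refine h1 (W.last z hz ?_)
            have : insert z M₁ = M₁ ∪ {z} := by
              ext w; simp only [mem_union, mem_insert, mem_singleton]; tauto
            rw [this]; exact h
          · rw [union_empty]; exact fun h => hz2 (W.now h)

/-- **Strategy stealing.** If for every division of the board into two parts one of the parts is
winning, then Maker wins. -/
theorem steal [Fintype X] (h : ∀ F₁ F₂ : Finset X, F₁ ∪ F₂ = univ → win F₁ ∨ win F₂) : W win univ ∅ := by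
  by_contra hW
  have h2 : ((univ : Finset X) = ∅ ∧ ¬ win ∅) ∨ ∃ z ∈ (univ : Finset X),
      ¬ W win ((univ : Finset X).erase z) ∅ := by
    by_cases hne : (univ : Finset X).Nonempty
    · obtain ⟨z, hz⟩ := hne
      right
      exact ⟨z, hz, fun h => hW (h.mono _ (erase_subset _ _))⟩
    · left
      exact ⟨not_nonempty_iff_eq_empty.1 hne, fun h => hW (W.now h)⟩
  obtain ⟨F₁, F₂, hF, h1, h2⟩ := divide _ univ ∅ ∅ le_rfl hW h2
  rw [empty_union] at h1 h2
  rcases h F₁ F₂ (univ_subset_iff.1 hF) with h3 | h3
  · exact h1 h3
  · exact h2 h3

/-- The win on the finite board is transferred to the game on the natural numbers. -/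
theorem transfer {S : Finset ℕ} (φ : X → ℕ) (hφ : Function.Injective φ)
    (hwin : ∀ M' : Finset X, win M' → ContainsCopy S (M'.image φ)) {free M' : Finset X}
    (h : W win free M') : ∀ (N : ℕ) (M B : Finset ℕ), free.card ≤ N → M'.image φ ⊆ M →
      (∀ x ∈ free, φ x ∉ M ∧ φ x ∉ B) → MakerWinsIn S N M B := by
  have hcopy : ∀ M' : Finset X, win M' → ∀ M : Finset ℕ, M'.image φ ⊆ M → ContainsCopy S M := by
    intro M' hM' M hM
    obtain ⟨a, ha, b, hb⟩ := hwin M' hM'
    refine ⟨a, ha, b, fun s hs => ?_⟩
    obtain ⟨m, hm, hm2⟩ := hb s hs
    exact ⟨m, hM hm, hm2⟩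
  induction h with
  | @now free M' h =>
      intro N M B _ hM _
      cases N with
      | zero => exact hcopy _ h M hM
      | succ N => exact Or.inl (hcopy _ h M hM)
  | @last free M' x hx h =>
      intro N M B hN hM hf
      cases N with
      | zero =>
          have := card_eq_zero.1 (Nat.le_zero.1 hN)
          rw [this] at hx
          simp at hx
      | succ N =>
          refine Or.inr ⟨φ x, (hf x hx).1, (hf x hx).2, Or.inl (hcopy _ h _ ?_)⟩
          rw [image_insert]
          exact insert_subset_insert _ hM
  | @step free M' x hx hne h ih =>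
      intro N M B hN hM hf
      cases N with
      | zero =>
          have := card_eq_zero.1 (Nat.le_zero.1 hN)
          rw [this] at hx
          simp at hx
      | succ N =>
          refine Or.inr ⟨φ x, (hf x hx).1, (hf x hx).2, Or.inr ?_⟩
          intro y hy1 hy2
          have key : ∀ y' ∈ free.erase x, (∀ w ∈ (free.erase x).erase y', φ w ≠ y) →
              MakerWinsIn S N (insert (φ x) M) (insert y B) := by
            intro y' hy' hw
            refine ih y' hy' N _ _ ?_ ?_ ?_
            · rw [card_erase_of_mem hy', card_erase_of_mem hx]
              omega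
            · rw [image_insert]
              exact insert_subset_insert _ hM
            · intro w hw'
              have hw1 : w ∈ free.erase x := mem_of_mem_erase hw'
              have hw2 : w ∈ free := mem_of_mem_erase hw1
              have hw3 : w ≠ x := ne_of_mem_erase hw1
              refine ⟨?_, ?_⟩
              · rw [mem_insert, not_or]
                exact ⟨fun h => hw3 (hφ h), (hf w hw2).1⟩
              · rw [mem_insert, not_or]
                exact ⟨hw w hw', (hf w hw2).2⟩
          by_cases hex : ∃ y' ∈ free.erase x, φ y' = y
          · obtain ⟨y', hy', hyy⟩ := hex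
            refine key y' hy' ?_
            intro w hw hwy
            have : w = y' := hφ (hwy.trans hyy.symm)
            exact (ne_of_mem_erase hw) this
          · push Not at hex
            obtain ⟨y0, hy0⟩ := hne
            exact key y0 hy0 (fun w hw => hex w (mem_of_mem_erase hw))

end Board

/-! ### The Hales-Jewett board -/

open Combinatorics

/-- the bound -/
theorem bound (n : ℕ) : ∃ C : ℕ, ∀ S : Finset ℕ, S.card = n → MakerWinsIn S C ∅ ∅ := by
  classical
  obtain ⟨ι, hι, hHJ⟩ := Line.exists_mono_in_high_dimension (Fin n) Bool
  refine ⟨Fintype.card (ι → Fin n), fun S hS => ?_⟩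
  set d := Fintype.card ι with hd
  let e : ι ≃ Fin d := Fintype.equivFin ι
  -- the enumeration of `S`
  let g : Fin n ≃ S := (S.equivFinOfCardEq hS).symm
  set b : ℕ := S.sup id + 1 with hb
  have hlt : ∀ s : S, (s : ℕ) < b := by
    intro s
    have := Finset.le_sup (f := id) s.2
    simp only [id] at this
    omega
  let φ : (ι → Fin n) → ℕ := fun x =>
    (finFunctionFinEquiv (fun i : Fin d => (⟨(g (x (e.symm i)) : ℕ), hlt _⟩ : Fin b)) : Fin (b ^ d))
  have hφval : ∀ x, φ x = ∑ i : Fin d, (g (x (e.symm i)) : ℕ) * b ^ (i : ℕ) := by
    intro x
    simp only [φ, finFunctionFinEquiv_apply]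
  have hφ : Function.Injective φ := by
    intro x y hxy
    have h1 := finFunctionFinEquiv.injective (Fin.ext hxy)
    funext i
    have h2 := congrFun h1 (e i)
    simp only [Equiv.symm_apply_apply, Fin.mk.injEq] at h2
    exact g.injective (Subtype.ext h2)
  let win : Finset (ι → Fin n) → Prop := fun M => ∃ l : Line (Fin n) ι, ∀ j, l j ∈ M
  have hW : W win univ ∅ := by
    refine steal ?_
    intro F₁ F₂ hF
    obtain ⟨l, c, hl⟩ := hHJ (fun x => decide (x ∈ F₁))
    cases c with
    | true =>
        left
        exact ⟨l, fun j => by simpa using hl j⟩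
    | false =>
        right
        refine ⟨l, fun j => ?_⟩
        have h1 : l j ∉ F₁ := by simpa using hl j
        have h2 : l j ∈ F₁ ∪ F₂ := by rw [hF]; exact mem_univ _
        rw [mem_union] at h2
        tauto
  refine transfer φ hφ ?_ hW _ ∅ ∅ ?_ (by simp) (by simp)
  · rintro M' ⟨l, hl⟩
    -- the active coordinates
    refine ⟨∑ i : Fin d, if l.idxFun (e.symm i) = none then b ^ (i : ℕ) else 0, ?_,
      ∑ i : Fin d, (((l.idxFun (e.symm i)).elim 0 (fun a => (g a : ℕ) * b ^ (i : ℕ)) : ℕ) : ℤ), ?_⟩
    · obtain ⟨i0, hi0⟩ := l.proper
      have h1 : b ^ ((e i0 : Fin d) : ℕ) ≤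
          ∑ i : Fin d, if l.idxFun (e.symm i) = none then b ^ (i : ℕ) else 0 := by
        have := Finset.single_le_sum
          (f := fun i : Fin d => if l.idxFun (e.symm i) = none then b ^ (i : ℕ) else 0)
          (fun i _ => Nat.zero_le _) (mem_univ (e i0))
        simpa [hi0] using this
      exact le_trans (Nat.one_le_pow _ _ (by omega)) h1
    · intro s hs
      refine ⟨φ (l (g.symm ⟨s, hs⟩)), mem_image_of_mem _ (hl _), ?_⟩
      rw [hφval]
      push_cast
      rw [Finset.sum_mul, ← Finset.sum_add_distrib]
      refine Finset.sum_congr rfl (fun i _ => ?_)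
      rw [Line.apply_def]
      cases h : l.idxFun (e.symm i) with
      | none => simp [h]; ring
      | some a => simp [h]
  · exact card_le_univ _

/-- **Theorem.** There is a function `C` such that for every finite nonempty set `S` of natural
numbers Maker has a `C(|S|)`-move strategy for `S`; equivalently, for every `n ≥ 1` the numbers
`M(S)`, `|S| = n`, are bounded. -/
theorem result :
    (∃ C : ℕ → ℕ, ∀ S : Finset ℕ, S.Nonempty → MakerWinsIn S (C S.card) ∅ ∅) ∧
    (∀ n : ℕ, 1 ≤ n → BddAbove {m : ℕ | ∃ S : Finset ℕ, S.card = n ∧ m = moveNumber S} ∧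
      ∀ S : Finset ℕ, S.card = n → MakerWinsIn S (moveNumber S) ∅ ∅) := by
  refine ⟨⟨fun n => (bound n).choose, fun S _ => (bound S.card).choose_spec S rfl⟩, ?_⟩
  intro n _
  obtain ⟨C, hC⟩ := bound n
  refine ⟨⟨C, ?_⟩, ?_⟩
  · rintro m ⟨S, hS, rfl⟩
    exact Nat.sInf_le (hC S hS)
  · intro S hS
    exact Nat.sInf_mem (s := {N : ℕ | MakerWinsIn S N ∅ ∅}) ⟨C, hC S hS⟩

end Pool.Agent.Results.MP_3e1131_co.BoundedWin
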